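import Pool.Agent.Q189.FL.Flow

/-!
# Stability implies Axiom A for limits of maps with homogeneous recurrence

Let `N` be a closed smooth manifold, `1 ≤ r ≤ ∞`, and let `F` be `Ω`-stable (for instance structurally stable)
in `Diff^r(N)`. Suppose that `F` is a limit in `Diff^r(N)` of diffeomorphisms `G` all of whose recurrent points,
with at most countably many exceptions, are periodic or lie on *homogeneous periodic submanifolds* of `G`:
`y` is such a point if some compact Lie group `K` acts smoothly on an open set which contains `y`, the orbit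
`C = K y` is infinite and periodic under `G`, `G^m(C) = C`, and `G^m` commutes on `C` with the action. (The
group, the open set and the action depend on `y`, and nothing is required of `G` away from the orbit of `C`.)
Then `Ω(F)` is finite and consists of hyperbolic periodic points, and `F` has no cycles; in particular `F`
satisfies Axiom A. The same holds if `F` commutes with a smooth action of a compact Lie group `K` and, with at
most countably many exceptions, the recurrent points `x` of `F` are relatively periodic (`F^m(x) ∈ K x`).

Examples of maps `G` of this kind: integrable maps, all of whose recurrence takes place on invariant tori on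
which the map is a translation in coordinates given by a local torus action; the extensions by compact Lie
groups `(x, g) ↦ (f x, a(x) g)`, and more generally the maps commuting with a smooth action of a compact Lie
group, such that the recurrent points of the induced map of the orbit space are periodic; isometries.

Proof. Near an `Ω`-stable map there are no homogeneous periodic submanifolds of positive dimension (library
`TH80.OMS` of the starting files), so the theorem of project CO of the starting files (`Y504.CO`) on
diffeomorphisms with countable nonperiodic recurrence applies to some `G` near `F`; hence `Ω(F)`, which is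
homeomorphic to `Ω(G)`, is finite, and the theorem applies to `F`.
-/

set_option autoImplicit false

open scoped Manifold ContDiff Topology

universe u

namespace Pool.Agent.Results.MP_4a0782_an.HomogeneousRecurrence

open Pool.Agent.H718R2.G Pool.Agent.TH80.OMS

/-- The recurrent points of `F`: every neighbourhood of `x` contains some `F^k(x)`, `k ≥ 1`. -/
def Rec {N : Type u} [TopologicalSpace N] (F : N → N) : Set N :=
  {x | ∀ W ∈ 𝓝 x, ∃ k : ℕ, 1 ≤ k ∧ F^[k] x ∈ W}

/-- `F` is structurally stable in `Diff^r(N)`: all `G` in a neighbourhood of `F` are topologically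
conjugate to `F`. -/
def StructStable (n : ℕ) (N : Type u) [TopologicalSpace N] [ChartedSpace (V n) N] (r : ℕ∞)
    (F : DiffM n N r) : Prop :=
  ∃ U : Set (DiffM n N r), IsOpen[strongTop n N r] U ∧ F ∈ U ∧
    ∀ G ∈ U, ∃ h : N ≃ₜ N, ∀ x, h (F x) = G (h x)

/-- `F` is a limit in `Diff^r(N)` of diffeomorphisms whose recurrent points, with at most countably many
exceptions, are periodic or lie on homogeneous periodic submanifolds. -/
def IsLimitOfHomogeneous {n : ℕ} {N : Type u} [TopologicalSpace N] [ChartedSpace (V n) N] {r : ℕ∞}
    (F : DiffM n N r) : Prop :=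
  ∀ U : Set (DiffM n N r), IsOpen[strongTop n N r] U → F ∈ U →
    ∃ G ∈ U, (Rec G \ (Per G ∪ {y | IsHomPerInf n N G y})).Countable

/-- `p` is a hyperbolic periodic point of `F`: `F^m(p) = p` for some `m ≥ 1`, and for every such `m`
and every chart `ψ` at `p` no eigenvalue of the derivative `D` of `F^m` at `p` has modulus one. -/
def IsHyperbolicPer (n : ℕ) {N : Type u} [TopologicalSpace N] [ChartedSpace (V n) N]
    (F : N → N) (p : N) : Prop :=
  p ∈ Per F ∧ ∀ m : ℕ, 1 ≤ m → F^[m] p = p → ∀ ψ ∈ IsManifold.maximalAtlas (𝓡 n) ∞ N,
    p ∈ ψ.source → ∃ D : V n →L[ℝ] V n, HasFDerivAt (fun v => ψ (F^[m] (ψ.symm v))) D (ψ p) ∧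
      ∀ μ : ℂ, ((LinearMap.charpoly (D : V n →ₗ[ℝ] V n)).map (algebraMap ℝ ℂ)).IsRoot μ → ‖μ‖ ≠ 1

/-- **Stable limits of maps with homogeneous recurrence.** -/
theorem result (n : ℕ) (N : Type u) [TopologicalSpace N] [T2Space N] [CompactSpace N]
    [ChartedSpace (V n) N] [IsManifold (𝓡 n) ∞ N] (r : ℕ∞) (hr : 1 ≤ r) (F : DiffM n N r)
    (hF : StructStable n N r F ∨ OmegaStable n N r F) :
    (IsLimitOfHomogeneous F → FiniteNoCycle F ∧ ∀ p ∈ Omega F, IsHyperbolicPer n F p) ∧
    (∀ (K : Type) [Group K] [TopologicalSpace K] [CompactSpace K] (q : ℕ)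
      (ι : K →* Matrix (Fin q) (Fin q) ℂ) (act : K → N → N),
      Pool.Agent.TH80.CLX.IsLieAction n N ι Set.univ act → (∀ g y, F (act g y) = act g (F y)) →
      (Rec F \ RelPer F act).Countable → FiniteNoCycle F ∧ ∀ p ∈ Omega F, IsHyperbolicPer n F p) := by
  have hF' : OmegaStable n N r F := by
    rcases hF with ⟨U, hU, hFU, h⟩ | h
    · refine ⟨U, hU, hFU, fun G hG => ?_⟩
      obtain ⟨e, he⟩ := h G hG
      exact Pool.Agent.Y504.CO.omegaConj_of_conj e he
    · exact h
  refine ⟨fun hlim => Pool.Agent.Q189.FL.homogeneous_main hr hF' hlim, ?_⟩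
  intro K _ _ _ q ι act hact hcom hc
  refine Pool.Agent.Q189.FL.homogeneous_main hr hF' fun U _ hFU => ⟨F, hFU, hc.mono ?_⟩
  rintro x ⟨hx, hxp⟩
  exact ⟨hx, fun h => hxp (Pool.Agent.Q189.FL.rel_sub hact F hcom h)⟩

end Pool.Agent.Results.MP_4a0782_an.HomogeneousRecurrence
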