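import Pool.Agent.Q154.OS.ProdFin

/-!
# Structural stability: products of arbitrary diffeomorphisms with isometries

`V n = ℝⁿ`, `DiffM n N r = Diff^r(N)`, `strongTop n N r` is its strong (Whitney) `C^r` topology (the
usual one, `N` being compact) (`Pool/Agent/H718R2/G0.lean`). `OmegaStable n N r F`: all diffeomorphisms
of a neighbourhood of `F` in `Diff^r(N)` are conjugate to `F` on the nonwandering sets
(`Pool/Agent/TH80/OMS/Defs.lean`); this is implied by structural stability. `ProdDiffeo m k n M Y N`:
smooth diffeomorphisms `Θ : M × Y → N`, `atP Θ x y = Θ (x, y)` (`Pool/Agent/Y271/CP/Defs.lean`).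

* `IsProdFin m k n M Y N F` (`Pool/Agent/Q154/OS/ProdFin.lean`): in the coordinates given by some `Θ`
  the map `F` is a product `f × h` of an ARBITRARY homeomorphism `f` of `M` and a smooth diffeomorphism
  `h` of `Y` whose set of periodic points has interior points (for example `h` has finite order);
* `IsProdIsom m k n M Y N F`: the same with `h` an element of a compact abelian Lie group of
  diffeomorphisms, `IsCompactElt` (for example an isometry of a Riemannian metric of `Y`): for some smooth
  action `φ` of `ℝ^d` which is trivial on `ℤ^d` and commutes with `h`, and some `q ≥ 1`, `h^q` is one of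
  the maps `φ_θ` (`IsAct k φ`: `φ` is a smooth action of `ℝ^d`, `Pool/Agent/Y271/CP/Torus.lean`).
-/

set_option autoImplicit false

open scoped Manifold ContDiff Topology

universe u v w

namespace Pool.Agent.Results.MP_4a0782_an.ProductsWithIsometries

open Pool.Agent.H718R2.G Pool.Agent.TH80.OMS Pool.Agent.Y271.CP Pool.Agent.Q154.OS

/-- `φ` is a smooth action of `ℝ^d` which is trivial on `ℤ^d`. -/
def IsTorusAction (k : ℕ) {d : ℕ} {Y : Type w} [TopologicalSpace Y] [ChartedSpace (V k) Y]
    (φ : V d → Y → Y) : Prop :=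
  IsAct k φ ∧ ∀ s : V d, (∀ i, ∃ c : ℤ, s i = c) → ∀ y, φ s y = y

/-- `h` is an element of a compact abelian Lie group of diffeomorphisms: it commutes with a smooth torus
action, and one of its powers belongs to the torus. -/
def IsCompactElt (k : ℕ) {Y : Type w} [TopologicalSpace Y] [ChartedSpace (V k) Y]
    (h : Y → Y) : Prop :=
  ∃ (d : ℕ) (φ : V d → Y → Y) (q : ℕ) (θ : V d), IsTorusAction k φ ∧
    (∀ s y, h (φ s y) = φ s (h y)) ∧ 1 ≤ q ∧ ∀ y, h^[q] y = φ θ y

/-- `F = f × h` in some smooth product coordinates, `f` an arbitrary homeomorphism of `M`, `h` an element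
of a compact abelian Lie group of diffeomorphisms of `Y`. -/
def IsProdIsom (m k n : ℕ) (M : Type v) [TopologicalSpace M] [ChartedSpace (V m) M]
    (Y : Type w) [TopologicalSpace Y] [ChartedSpace (V k) Y]
    (N : Type u) [TopologicalSpace N] [ChartedSpace (V n) N] (F : N → N) : Prop :=
  ∃ (Θ : ProdDiffeo m k n M Y N) (f : M ≃ₜ M) (h : Diffeomorph (𝓡 k) (𝓡 k) Y Y ∞),
    IsCompactElt k h ∧ ∀ x y, F (atP Θ x y) = atP Θ (f x) (h y)

/-- Let `N` be a nonempty closed manifold, `1 ≤ r ≤ ∞`, and let `F ∈ Diff^r(N)` be a `C^r` limit of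
diffeomorphisms `F'` (for example `F' = F`) of the form `f × h` on `N ≅ M × Y`, `dim Y ≥ 2`, where `f` is
an ARBITRARY homeomorphism of `M`, and `h` is a smooth diffeomorphism of `Y` which is an element of a
compact Lie group of diffeomorphisms (for instance an isometry), or whose set of periodic points has
interior points. Then `F` is not `Ω`-stable, and so not structurally stable. -/
theorem result {m k n : ℕ} (hk : 2 ≤ k) {M : Type v} [TopologicalSpace M] [ChartedSpace (V m) M]
    {Y : Type w} [TopologicalSpace Y] [T2Space Y] [ChartedSpace (V k) Y] [IsManifold (𝓡 k) ∞ Y]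
    {N : Type u} [TopologicalSpace N] [T2Space N] [CompactSpace N] [Nonempty N]
    [ChartedSpace (V n) N] [IsManifold (𝓡 n) ∞ N] (r : ℕ∞) (hr : 1 ≤ r) (F : DiffM n N r)
    (h : ∀ U : Set (DiffM n N r), IsOpen[strongTop n N r] U → F ∈ U →
      ∃ F' ∈ U, IsProdFin m k n M Y N F' ∨ IsProdIsom m k n M Y N F') : ¬ OmegaStable n N r F := by
  refine not_stable_of_prodFin (m := m) (M := M) (Y := Y) hk r hr F fun U hU hFU => ?_
  obtain ⟨F', hF', h1 | ⟨Θ, f, g, ⟨d, φ, q, θ, ⟨hφ, hint⟩, hcomm, hq, hqθ⟩, hprod⟩⟩ := h U hU hFU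
  · exact ⟨F', hF', h1⟩
  · exact limit_prodFin r hr Θ F' φ hφ hint g hcomm q hq θ hqθ f hprod U hU hF'

end Pool.Agent.Results.MP_4a0782_an.ProductsWithIsometries
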