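import Pool.Agent.Q154.OS.Mix

/-!
# `Ω`-stability: density of periodic points in products of arbitrary maps with mixing maps

`V n = ℝⁿ`, `DiffM n N r` is `Diff^r(N)`, `strongTop n N r` is its strong (Whitney) `C^r` topology (the
usual one, `N` being compact) (`Pool/Agent/H718R2/G0.lean`). `OmegaStable n N r F`: all diffeomorphisms
of a neighbourhood of `F` in `Diff^r(N)` are conjugate to `F` on the nonwandering sets, `Omega F`: the
nonwandering set (`Pool/Agent/TH80/OMS/Defs.lean`); `Per F`: the periodic points
(`Pool/Agent/TH80/OMS/SymDefs.lean`). `NonWand f x`: `x` is nonwandering for `f`, `PerShadow h`: `h` has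
the periodic shadowing property, `ChainMix h`: `h` is chain mixing (`Pool/Agent/W564/SC/Defs.lean`).
Hyperbolic automorphisms of tori have these properties (`Pool.Agent.W564.SC.t_EX2`).

Proof: the starting closing lemma for such products (project SC, `ArbitraryTimesMixing`) is proved
again with a perturbation whose support is close to the point (`Pool/Agent/Q154/OS/Loc.lean`); so it
destroys no periodic orbit of `F` and creates a new one near the point, which contradicts
`Ω`-stability if the point is not a limit of periodic points of `F`.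
-/

set_option autoImplicit false

open scoped Manifold ContDiff Topology

universe u v w

namespace Pool.Agent.Results.MP_4a0782_an.ProductsWithMixing

open Pool.Agent.H718R2.G Pool.Agent.TH80.OMS Pool.Agent.W564.SC Pool.Agent.Q154.OS

/-- Let `N` be a closed manifold, `1 ≤ r ≤ ∞`, and let `F ∈ Diff^r(N)` be `Ω`-stable. Let `Θ` be an
embedding of a product `X × Y` of compact metric spaces onto an `F`-invariant subset of `N` which
conjugates `F` to `f × h`, where `f` is an ARBITRARY homeomorphism of `X` and `h` is a chain mixing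
homeomorphism of `Y` (not a point) with the periodic shadowing property. Then `Θ(x, y)` is a limit of
periodic points of `F` for every nonwandering point `x` of `f` and every `y ∈ Y`. So if `Θ` is onto, then
`Ω(F)` is the closure of the set of the periodic points of `F`: this holds for all `Ω`-stable
diffeomorphisms `f × A` with `f` arbitrary and `A` a hyperbolic automorphism of a torus. -/
theorem result {n : ℕ} {N : Type u} [TopologicalSpace N] [T2Space N] [CompactSpace N]
    [ChartedSpace (V n) N] [IsManifold (𝓡 n) ∞ N] (r : ℕ∞) (hr : 1 ≤ r) (F : DiffM n N r)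
    (hF : OmegaStable n N r F)
    {X : Type v} {Y : Type w} [MetricSpace X] [CompactSpace X] [MetricSpace Y] [CompactSpace Y]
    [Nontrivial Y] (f : X ≃ₜ X) (h : Y ≃ₜ Y) (hsh : PerShadow h) (hmix : ChainMix h)
    (Θ : X × Y → N) (hΘ : Topology.IsEmbedding Θ) (hconj : ∀ x y, F (Θ (x, y)) = Θ (f x, h y)) :
    (∀ x y, NonWand f x → Θ (x, y) ∈ closure (Per F)) ∧
    (Function.Surjective Θ → Omega F = closure (Per F)) := by
  have h1 : ∀ x y, NonWand f x → Θ (x, y) ∈ closure (Per F) := fun x y hx =>
    mem_closure_per hr hF (loc_mix hr F f h hsh hmix Θ hΘ hconj x y hx)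
  refine ⟨h1, fun hsurj => Set.Subset.antisymm (fun z hz => ?_) ?_⟩
  · obtain ⟨⟨x, y⟩, rfl⟩ := hsurj z
    refine h1 x y fun W hW => ?_
    -- the preimage of an open set of `X`
    obtain ⟨W', hW'W, hW'o, hxW'⟩ := mem_nhds_iff.1 hW
    have hΘh : IsHomeomorph Θ := by
      refine ⟨hΘ.continuous, ?_, hΘ.injective, hsurj⟩
      have h2 : IsClosedMap Θ := hΘ.continuous.isClosedMap
      intro s hs
      have h3 := h2 sᶜ hs.isClosed_compl
      rw [Set.image_compl_eq ⟨hΘ.injective, hsurj⟩] at h3
      exact isClosed_compl_iff.1 h3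
    have hO : IsOpen (Θ '' {p : X × Y | p.1 ∈ W'}) :=
      hΘh.isOpenMap _ (hW'o.preimage continuous_fst)
    obtain ⟨k, hk, z', ⟨p, hp, rfl⟩, ⟨q, hq, hq'⟩⟩ := hz _ hO ⟨(x, y), hxW', rfl⟩
    refine ⟨k, hk, p.1, hW'W hp, ?_⟩
    have h4 : F^[k] (Θ p) = Θ (f^[k] p.1, h^[k] p.2) := Pool.Agent.W216.SC.iter_Θ hconj k p.1 p.2
    rw [h4] at hq'
    have h5 := hΘ.injective hq'
    have h6 : q.1 = f^[k] p.1 := by rw [h5]
    rw [← h6]
    exact hW'W hq
  · refine closure_minimal ?_ (Pool.Agent.Y504.CO.Cnt.omega_closed (F : N → N))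
    rintro p ⟨m, hm, hp⟩
    exact per_mem_omega hm hp

end Pool.Agent.Results.MP_4a0782_an.ProductsWithMixing
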