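import Pool.Agent.Q154.OS.Slow
import Pool.Agent.H185.CL.Ret
import Pool.Agent.H185.CL.Lip

/-!
# `Ω`-stability: thin invariant measures live on the closure of the periodic points

`V n = ℝⁿ`, `DiffM n N r` is `Diff^r(N)`, `strongTop n N r` is its strong (Whitney) `C^r` topology (the
usual one, `N` being compact) (`Pool/Agent/H718R2/G0.lean`). `OmegaStable n N r F`: all diffeomorphisms
of a neighbourhood of `F` in `Diff^r(N)` are conjugate to `F` on the nonwandering sets
(`Pool/Agent/TH80/OMS/Defs.lean`); `Per F`: the periodic points (`Pool/Agent/TH80/OMS/SymDefs.lean`).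
`ChartLip n N`: the distance of `N` is compatible with the smooth structure (good charts are
bi-Lipschitz), for instance a Riemannian distance (`Pool/Agent/Y368/CL/Met.lean`). `LipTo f m Γ`: `Γ` is
a Lipschitz constant of `f^i` for all `|i| ≤ 2m` (`Pool/Agent/Y368/CL/Grow.lean`).

The definitions of thin measures and the return time argument are those of helper185
(`MP_1e8d1a_an/ThinInvariantMeasures`), who proved the closing lemma on the supports of thin measures
for all maps, and the conclusion below for GENERIC maps (which are not `Ω`-stable in general, and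
`Ω`-stable maps need not be generic). The proof for all `Ω`-stable maps uses local closing
(`Pool/Agent/Q154/OS`).
-/

set_option autoImplicit false

open MeasureTheory
open scoped Manifold ContDiff Topology ENNReal

universe u

namespace Pool.Agent.Results.MP_4a0782_an.ThinMeasuresOfStableMaps

open Pool.Agent.H718R2.G Pool.Agent.TH80.OMS Pool.Agent.W564.SC Pool.Agent.Y368.CL
  Pool.Agent.Q154.OS

/-- The measure `μ` is thin with respect to the growth of the iterates of `f`, with exponents `b`: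
for some growth function `Λ` of `f` (`Λ m ≥ m` is a Lipschitz constant of all `f^i`, `|i| ≤ 2m`) and all
orders `k ≤ r`, constants `C` and `η, δ > 0`, up to a set of measure at most `η` the space can be
covered by finitely many, say `s`, sets of diameter at most `ε`, where `ε Λ(C s)^b(k) ≤ δ`. -/
def Thin {n : ℕ} {N : Type u} [MetricSpace N] [ChartedSpace (V n) N] [MeasurableSpace N] {r : ℕ∞}
    (b : ℕ → ℕ) (f : DiffM n N r) (μ : Measure N) : Prop :=
  ∃ Λ : ℕ → ℝ, Monotone Λ ∧ (∀ m, LipTo f m (Λ m)) ∧ (∀ m : ℕ, (m : ℝ) ≤ Λ m) ∧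
    ∀ k : ℕ, (k : ℕ∞) ≤ r → ∀ (C : ℕ) (η : ℝ≥0∞) (δ : ℝ), 0 < η → 0 < δ →
      ∃ (ε : ℝ) (S : Finset (Set N)), 0 < ε ∧ (∀ U ∈ S, ∀ x ∈ U, ∀ y ∈ U, dist x y ≤ ε) ∧
        μ (⋃ U ∈ S, U)ᶜ ≤ η ∧ ε * Λ (C * S.card) ^ b k ≤ δ

/-- Up to sets of arbitrarily small measure the space can be covered by `o(log (1/ε))` sets of diameter
`ε`, for some arbitrarily small `ε`. (This does not depend on any dynamics.) -/
def LogThin {N : Type u} [MetricSpace N] [MeasurableSpace N] (μ : Measure N) : Prop :=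
  ∀ (A : ℝ) (η : ℝ≥0∞), 0 < η → ∃ (ε : ℝ) (S : Finset (Set N)), 0 < ε ∧
    (∀ U ∈ S, ∀ x ∈ U, ∀ y ∈ U, dist x y ≤ ε) ∧ μ (⋃ U ∈ S, U)ᶜ ≤ η ∧
    A * (S.card + 1) ≤ Real.log (1 / ε)

/-- `z` is in the support of `μ`. -/
def InSupp {N : Type u} [TopologicalSpace N] [MeasurableSpace N] (μ : Measure N) (z : N) : Prop :=
  ∀ W ∈ 𝓝 z, 0 < μ W

theorem thin_of_log {n : ℕ} {N : Type u} [MetricSpace N] [CompactSpace N] [ChartedSpace (V n) N]
    [IsManifold (𝓡 n) ∞ N] [MeasurableSpace N] {r : ℕ∞} (hr : 1 ≤ r) (hN : ChartLip n N)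
    (b : ℕ → ℕ) (f : DiffM n N r) (μ : Measure N) (hμ : LogThin μ) : Thin b f μ := by
  obtain ⟨L, hL, hlip⟩ := Pool.Agent.H185.CL.exists_growth hN hr f
  have hL0 : 0 < L := by linarith
  refine ⟨fun m => m + L ^ (2 * m), ?_, ?_, ?_, ?_⟩
  · intro m m' h
    have h1 : (m : ℝ) ≤ m' := by exact_mod_cast h
    have h2 : L ^ (2 * m) ≤ L ^ (2 * m') := pow_le_pow_right₀ hL (by omega)
    exact add_le_add h1 h2
  · intro m i hi x y
    have h := hlip m i hi x y
    have h0 : L ^ (2 * m) ≤ m + L ^ (2 * m) := by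
      have : (0 : ℝ) ≤ m := Nat.cast_nonneg m
      linarith
    exact ⟨h.1.trans (mul_le_mul_of_nonneg_right h0 dist_nonneg),
      h.2.trans (mul_le_mul_of_nonneg_right h0 dist_nonneg)⟩
  · intro m
    have : (0 : ℝ) ≤ L ^ (2 * m) := by positivity
    linarith
  · intro k _ C η δ hη hδ
    -- `m + L^(2m) ≤ exp(B m)` with `B = 1 + 2 log L`... and the power `b k`
    obtain ⟨B, hB⟩ : ∃ B : ℝ, B = (1 + 2 * Real.log L) := ⟨_, rfl⟩
    have hB0 : 0 ≤ B := by
      rw [hB]
      have := Real.log_nonneg hL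
      linarith
    have hgrow : ∀ m : ℕ, (m : ℝ) + L ^ (2 * m) ≤ Real.exp (B * m + 1) := by
      intro m
      have h1 : L ^ (2 * m) = Real.exp (2 * Real.log L * m) := by
        rw [← Real.rpow_natCast, Real.rpow_def_of_pos hL0]
        congr 1
        push_cast
        ring
      have h2 : (m : ℝ) ≤ Real.exp m := by linarith [Real.add_one_le_exp (m : ℝ)]
      have h3 : Real.exp (m : ℝ) ≤ Real.exp (B * m) := by
        apply Real.exp_le_exp.2
        rw [hB]
        have := Real.log_nonneg hL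
        have hm : (0 : ℝ) ≤ m := Nat.cast_nonneg m
        nlinarith
      have h4 : Real.exp (2 * Real.log L * m) ≤ Real.exp (B * m) := by
        apply Real.exp_le_exp.2
        rw [hB]
        have hm : (0 : ℝ) ≤ m := Nat.cast_nonneg m
        nlinarith
      have h5 : (2 : ℝ) ≤ Real.exp 1 := by linarith [Real.add_one_le_exp (1 : ℝ)]
      rw [h1, Real.exp_add]
      have h6 : 0 < Real.exp (B * m) := Real.exp_pos _
      nlinarith
    obtain ⟨A, hA⟩ : ∃ A : ℝ, A = b k * (B * C + 1) + |Real.log δ| := ⟨_, rfl⟩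
    obtain ⟨ε, S, hε, hd, hm, hlog⟩ := hμ A η hη
    refine ⟨ε, S, hε, hd, hm, ?_⟩
    have hs0 : (0 : ℝ) ≤ (S.card : ℝ) := Nat.cast_nonneg _
    have h1 := hgrow (C * S.card)
    have h2 : ((C * S.card : ℕ) : ℝ) + L ^ (2 * (C * S.card)) ≤
        Real.exp (B * (C * S.card) + 1) := by
      push_cast at h1 ⊢
      exact h1
    have hpos : (0 : ℝ) ≤ ((C * S.card : ℕ) : ℝ) + L ^ (2 * (C * S.card)) := by positivity
    have h3 : (((C * S.card : ℕ) : ℝ) + L ^ (2 * (C * S.card))) ^ b k ≤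
        Real.exp (b k * (B * (C * S.card) + 1)) := by
      rw [Real.exp_nat_mul]
      exact pow_le_pow_left₀ hpos h2 _
    have h4 : ε = Real.exp (-Real.log (1 / ε)) := by
      rw [one_div, Real.log_inv, neg_neg, Real.exp_log hε]
    have h5 : ε * Real.exp (b k * (B * (C * S.card) + 1)) ≤ δ := by
      rw [h4, ← Real.exp_add, ← Real.le_log_iff_exp_le hδ]
      have h6 : -|Real.log δ| ≤ Real.log δ := neg_abs_le _
      have h7 : 0 ≤ |Real.log δ| := abs_nonneg _
      have hb : (0 : ℝ) ≤ b k := Nat.cast_nonneg _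
      have hC : (0 : ℝ) ≤ C := Nat.cast_nonneg _
      rw [hA] at hlog
      have h8 : (b k * (B * (C * S.card) + 1) : ℝ) + |Real.log δ| ≤
          (b k * (B * C + 1) + |Real.log δ|) * (S.card + 1) := by
        have e1 : 0 ≤ (b k : ℝ) * (B * C) := by positivity
        have e2 : 0 ≤ (b k : ℝ) * (S.card : ℝ) := mul_nonneg hb hs0
        have e3 : 0 ≤ |Real.log δ| * (S.card : ℝ) := mul_nonneg h7 hs0
        nlinarith
      linarith
    exact (mul_le_mul_of_nonneg_left h3 hε.le).trans h5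

theorem not_supp_of_thin {n : ℕ} {N : Type u} [MetricSpace N] [ChartedSpace (V n) N]
    [MeasurableSpace N] [BorelSpace N] {r : ℕ∞} (b : ℕ → ℕ) (f : DiffM n N r) (z : N)
    (hslow : ∀ Λ : ℕ → ℝ, (∀ m, LipTo f m (Λ m)) → (∀ m : ℕ, (m : ℝ) ≤ Λ m) →
      ∃ k : ℕ, (k : ℕ∞) ≤ r ∧ ∃ W ∈ 𝓝 z, ∃ c : ℝ, 0 < c ∧
        ∀ y ∈ W, ∀ m : ℕ, 1 ≤ m → c / (Λ m) ^ b k ≤ dist (f^[m] y) y)
    (μ : Measure N) [IsProbabilityMeasure μ] (hμ : MeasurePreserving f μ μ) (hthin : Thin b f μ)
    (hz : InSupp μ z) : False := by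
  obtain ⟨Λ, hmono, hlip, hge, hth⟩ := hthin
  obtain ⟨k, hk, W, hW, c, hc, h⟩ := hslow Λ hlip hge
  have hW' : interior W ∈ 𝓝 z := interior_mem_nhds.2 hW
  have hpos : 0 < μ (interior W) := hz _ hW'
  obtain ⟨w, hwd⟩ : ∃ w : ℝ≥0∞, w = μ (interior W) := ⟨_, rfl⟩
  rw [← hwd] at hpos
  have hw1 : w ≤ 1 := by rw [hwd]; exact prob_le_one
  have hwt : w ≠ ⊤ := ne_top_of_le_ne_top ENNReal.one_ne_top hw1
  have hη : 0 < w / 2 := ENNReal.half_pos hpos.ne'
  obtain ⟨C, hC⟩ := ENNReal.exists_nat_gt (ENNReal.inv_ne_top.2 hη.ne')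
  obtain ⟨ε, S, hε, hd, hm, hsm⟩ := hth k hk C (w / 2) (c / 2) hη (half_pos hc)
  have hCi : (C : ℝ≥0∞)⁻¹ < w / 2 := by
    rw [ENNReal.inv_lt_iff_inv_lt]
    exact hC
  have hC1 : 1 ≤ C := by
    rcases Nat.eq_zero_or_pos C with h0 | h0
    · rw [h0] at hC
      simp at hC
    · exact h0
  have hT : (S.card : ℝ≥0∞) / (((C * S.card : ℕ) : ℝ≥0∞) + 1) + w / 2 < μ (interior W) := by
    rw [← hwd]
    have h1 : (S.card : ℝ≥0∞) / (((C * S.card : ℕ) : ℝ≥0∞) + 1) ≤ (C : ℝ≥0∞)⁻¹ := by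
      rw [ENNReal.div_le_iff (by positivity) (by finiteness)]
      have hC0 : (C : ℝ≥0∞) ≠ 0 := by
        have : C ≠ 0 := by omega
        exact_mod_cast this
      calc (S.card : ℝ≥0∞) = (C : ℝ≥0∞)⁻¹ * ((C * S.card : ℕ) : ℝ≥0∞) := by
            push_cast
            rw [← mul_assoc, ENNReal.inv_mul_cancel hC0 (ENNReal.natCast_ne_top C), one_mul]
        _ ≤ (C : ℝ≥0∞)⁻¹ * (((C * S.card : ℕ) : ℝ≥0∞) + 1) := by
            gcongr
            exact le_self_add
    calc _ ≤ (C : ℝ≥0∞)⁻¹ + w / 2 := by gcongr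
      _ < w / 2 + w / 2 := by
          exact ENNReal.add_lt_add_right (ne_top_of_le_ne_top hwt ENNReal.half_le_self) hCi
      _ = w := ENNReal.add_halves w
  obtain ⟨x, hx, m, hm1, hmT, hdist⟩ := Pool.Agent.H185.CL.exists_return hμ isOpen_interior S ε hd
    (w / 2) hm (C * S.card) hT
  have h1 := h x (interior_subset hx) m hm1
  have hΛm : (1 : ℝ) ≤ Λ m := le_trans (by exact_mod_cast hm1) (hge m)
  have hΛ0 : 0 < Λ m := by linarith
  have h2 : Λ m ≤ Λ (C * S.card) := hmono hmT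
  have h3 : Λ m ^ b k ≤ Λ (C * S.card) ^ b k := pow_le_pow_left₀ hΛ0.le h2 _
  have h4 : 0 < Λ m ^ b k := by positivity
  have h5 : c ≤ ε * Λ m ^ b k := by
    rw [div_le_iff₀ h4] at h1
    exact h1.trans (mul_le_mul_of_nonneg_right hdist h4.le)
  have h6 : ε * Λ m ^ b k ≤ ε * Λ (C * S.card) ^ b k := mul_le_mul_of_nonneg_left h3 hε.le
  linarith

/-- There are UNIVERSAL exponents `a n k` such that for every closed `n`-manifold `N` with a compatible
distance, `2 ≤ r ≤ ∞`, and EVERY `Ω`-stable `F ∈ Diff^r(N)`: the support of every `F`-invariant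
probability measure which is thin with respect to the growth of the iterates of `F` is contained in the
closure of the set of the periodic points. All measures which, up to sets of small measure, live on
sets which are covered by `o(log (1/ε))` sets of diameter `ε`, for some `ε → 0`, are thin. -/
theorem result : ∃ a : ℕ → ℕ → ℕ, ∀ (n : ℕ) (N : Type u) [MetricSpace N] [CompactSpace N]
    [MeasurableSpace N] [BorelSpace N] [ChartedSpace (V n) N] [IsManifold (𝓡 n) ∞ N] (r : ℕ∞),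
    2 ≤ r → ChartLip n N → ∀ F : DiffM n N r, OmegaStable n N r F →
    ∀ (μ : Measure N) [IsProbabilityMeasure μ], MeasurePreserving F μ μ →
      Thin (a n) F μ ∨ LogThin μ → ∀ z, InSupp μ z → z ∈ closure (Per F) := by
  obtain ⟨a, ha⟩ := loc_main.{u}
  refine ⟨a, fun n N _ _ _ _ _ _ r hr hN F hF μ _ hμ hth z hz => ?_⟩
  have hr1 : (1 : ℕ∞) ≤ r := le_trans (by norm_num) hr
  have hth' : Thin (a n) F μ := hth.elim id (thin_of_log hr1 hN (a n) F μ)
  by_contra hcon
  refine not_supp_of_thin (a n) F z (fun Λ h3 h4 => ?_) μ hμ hth' hz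
  rcases ha n N hN r hr F Λ h3 h4 z with h | h
  · exact absurd (mem_closure_per hr1 hF h) hcon
  · exact h

end Pool.Agent.Results.MP_4a0782_an.ThinMeasuresOfStableMaps
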